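import Pool.Agent.H937.QS.Stm3

/-!
# QS-ESY (helper937): symmetric functions of elements with denominators
-/

set_option autoImplicit false

open scoped Matrix TensorProduct
open Pool.Agent.H937.QS
universe u
namespace Pool.Agent.H828.QS.ESY

open Polynomial

/-- Interpolation: a polynomial whose values at the elements of the infinite field `k` are in the
subalgebra `E` has its coefficients in `E`. -/
theorem interp {k M : Type u} [Field k] [Infinite k] [Field M] [Algebra k M] (E : Subalgebra k M)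
    (Q : M[X]) (h : ∀ c : k, Q.eval (algebraMap k M c) ∈ E) (m : ℕ) : Q.coeff m ∈ E := by
  classical
  obtain ⟨s, hs⟩ := Infinite.exists_subset_card_eq k (Q.natDegree + 1)
  have hinj : Set.InjOn (algebraMap k M) s := (algebraMap k M).injective.injOn
  have hdeg : Q.degree < s.card := by
    rw [hs]
    refine lt_of_le_of_lt Polynomial.degree_le_natDegree ?_
    exact_mod_cast Nat.lt_succ_self _
  have h1 := Lagrange.eq_interpolate hinj hdeg
  rw [h1, Lagrange.interpolate_apply, Polynomial.finsetSum_coeff]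
  refine E.sum_mem fun i _ => ?_
  rw [Polynomial.coeff_C_mul]
  refine E.mul_mem (h i) ?_
  have h2 : Lagrange.basis s (algebraMap k M) i =
      (Lagrange.basis s (id : k → k) i).map (algebraMap k M) := by
    unfold Lagrange.basis
    rw [Polynomial.map_prod]
    refine Finset.prod_congr rfl fun j _ => ?_
    unfold Lagrange.basisDivisor
    simp only [Polynomial.map_mul, Polynomial.map_C, Polynomial.map_sub, Polynomial.map_X, id,
      map_inv₀, map_sub]
  rw [h2, Polynomial.coeff_map]
  exact E.algebraMap_mem _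

/-- The product of the values. -/
theorem prod_mem {k B M : Type u} [Field k] [CommRing B] [Algebra k B] [Field M] [Algebra k M]
    {n : ℕ} (ev : B →ₐ[k] (Fin n → M)) (b : B) : ∏ q, ev b q ∈ Esym k ev := by
  have h1 : (∏ q, (X - C (ev b q))).coeff 0 ∈ Esym k ev :=
    Algebra.subset_adjoin ⟨b, 0, rfl⟩
  have h2 : (∏ q, (X - C (ev b q))).coeff 0 = (-1) ^ n * ∏ q, ev b q := by
    rw [Polynomial.coeff_zero_eq_eval_zero, Polynomial.eval_prod]
    simp only [Polynomial.eval_sub, Polynomial.eval_X, Polynomial.eval_C, zero_sub]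
    rw [Finset.prod_neg, Finset.card_univ, Fintype.card_fin]
  rw [h2] at h1
  have h3 : ((-1 : M) ^ n) ∈ Esym k ev := (Esym k ev).pow_mem ((Esym k ev).neg_mem
    (Esym k ev).one_mem) n
  have h4 := (Esym k ev).mul_mem h3 h1
  have h5 : (-1 : M) ^ n * ((-1) ^ n * ∏ q, ev b q) = ∏ q, ev b q := by
    rw [← mul_assoc, ← mul_pow]
    norm_num
  rwa [h5] at h4

theorem t_ESY : S_ESY.{u} := by
  intro k B B' M _ _ _ _ _ _ _ _ n ev ev' u hu hloc x hx
  have hν : ∏ q, ev u q ∈ Esym k ev := prod_mem ev u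
  unfold Esym at hx
  induction hx using Algebra.adjoin_induction with
  | mem x hx =>
    obtain ⟨b', m, rfl⟩ := hx
    obtain ⟨b, e, hb⟩ := hloc b'
    refine ⟨e, ?_⟩
    have hQ : C ((∏ q, ev u q) ^ e) * ∏ q, (X - C (ev' b' q)) =
        ∏ q, (C (ev u q ^ e) * X - C (ev b q)) := by
      rw [← Finset.prod_pow, map_prod, ← Finset.prod_mul_distrib]
      refine Finset.prod_congr rfl fun q _ => ?_
      rw [← hb q, mul_sub, ← C_mul, mul_comm (ev u q ^ e) (ev' b' q)]
    rw [← Polynomial.coeff_C_mul, hQ]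
    apply interp
    intro c
    rw [Polynomial.eval_prod]
    have h1 : ∏ q, Polynomial.eval (algebraMap k M c) (C (ev u q ^ e) * X - C (ev b q)) =
        ∏ q, ev (c • u ^ e - b) q := by
      refine Finset.prod_congr rfl fun q _ => ?_
      rw [Polynomial.eval_sub, Polynomial.eval_mul, Polynomial.eval_C, Polynomial.eval_C,
        Polynomial.eval_X, map_sub, map_smul, map_pow, Pi.sub_apply, Pi.smul_apply, Pi.pow_apply,
        Algebra.smul_def, mul_comm]
    rw [h1]
    exact prod_mem ev _
  | algebraMap r => exact ⟨0, by rw [pow_zero, one_mul]; exact (Esym k ev).algebraMap_mem r⟩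
  | add x y _ _ h1 h2 =>
    obtain ⟨e1, h1⟩ := h1
    obtain ⟨e2, h2⟩ := h2
    refine ⟨e1 + e2, ?_⟩
    have : (∏ q, ev u q) ^ (e1 + e2) * (x + y) = (∏ q, ev u q) ^ e2 * ((∏ q, ev u q) ^ e1 * x) +
        (∏ q, ev u q) ^ e1 * ((∏ q, ev u q) ^ e2 * y) := by
      rw [pow_add]; ring
    rw [this]
    exact (Esym k ev).add_mem ((Esym k ev).mul_mem ((Esym k ev).pow_mem hν _) h1)
      ((Esym k ev).mul_mem ((Esym k ev).pow_mem hν _) h2)
  | mul x y _ _ h1 h2 =>
    obtain ⟨e1, h1⟩ := h1
    obtain ⟨e2, h2⟩ := h2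
    refine ⟨e1 + e2, ?_⟩
    have : (∏ q, ev u q) ^ (e1 + e2) * (x * y) = ((∏ q, ev u q) ^ e1 * x) *
        ((∏ q, ev u q) ^ e2 * y) := by
      rw [pow_add]; ring
    rw [this]
    exact (Esym k ev).mul_mem h1 h2

end Pool.Agent.H828.QS.ESY
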